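import Pool.Agent.U708.EG.Gen

/-!
# Generic stationary laws of the couplings: exactly one pair of Edwards-Anderson ground states
-/

set_option autoImplicit false

open MeasureTheory Filter Topology

namespace Pool.Agent.Results.MP_37ff18_mp.GenericStationaryLaws

/-- The bond `(v, i)` joins the sites `v` and `v + e_i` of `ℤ^d`. -/
abbrev Bond (d : ℕ) : Type := (Fin d → ℤ) × Fin d

/-- `σ` is an infinite-volume ground state for the couplings `J`: every change at finitely many
sites (at least one) increases the energy `-∑ J_e σ σ` (the sum of the differences over all bonds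
is a finite sum). -/
def IsGroundState {d : ℕ} (J : Bond d → ℝ) (σ : (Fin d → ℤ) → ℝ) : Prop :=
  (∀ x, σ x = 1 ∨ σ x = -1) ∧
  ∀ ρ : (Fin d → ℤ) → ℝ, (∀ x, ρ x = 1 ∨ ρ x = -1) → {x | ρ x ≠ σ x}.Finite → ρ ≠ σ →
    0 < ∑ᶠ e : Bond d, J e * (σ e.1 * σ (e.1 + (Pi.single e.2 (1 : ℤ) : Fin d → ℤ))
      - ρ e.1 * ρ (e.1 + (Pi.single e.2 (1 : ℤ) : Fin d → ℤ)))

/-- The laws of random couplings on `ℤ^d`, with the topology of weak convergence. -/
abbrev Law (d : ℕ) : Type := ProbabilityMeasure (Bond d → ℝ)

/-- The couplings moved by the lattice vector `x`. -/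
def shift {d : ℕ} (x : Fin d → ℤ) (J : Bond d → ℝ) : Bond d → ℝ := fun e => J (e.1 + x, e.2)

open Classical in
/-- The couplings with the sign of the coupling at the bond `b` changed. -/
noncomputable def flip {d : ℕ} (b : Bond d) (J : Bond d → ℝ) : Bond d → ℝ :=
  fun e => if e = b then -J e else J e

/-- The law is invariant under the translations of the lattice. -/
def Stationary {d : ℕ} (P : Law d) : Prop :=
  ∀ x : Fin d → ℤ, (P : Measure (Bond d → ℝ)).map (shift x) = P

/-- The law is invariant under the change of the sign of any single coupling. -/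
def Symmetric {d : ℕ} (P : Law d) : Prop :=
  ∀ b : Bond d, (P : Measure (Bond d → ℝ)).map (flip b) = P

/-- Almost surely there is exactly one pair `σ, -σ` of ground states. -/
def OnePair {d : ℕ} (P : Law d) : Prop :=
  ∀ᵐ J ∂(P : Measure (Bond d → ℝ)), ∃ σ, {ρ | IsGroundState J ρ} = {σ, -σ}

open Pool.Agent.R239.EA Pool.Agent.U708.EG

lemma ga_iff {d : ℕ} {J : Bond d → ℝ} {σ : (Fin d → ℤ) → ℝ} :
    IsGroundState J σ ↔ GA J σ := by
  rw [GA_iff]
  rfl

lemma flip_eq {d : ℕ} (b : Bond d) : flip b = fl {b} := by
  classical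
  funext J e
  unfold flip fl
  by_cases h : e = b
  · simp [h]
  · simp [h]

lemma shift_eq {d : ℕ} (x : Fin d → ℤ) : shift x = shw x := rfl

lemma onePair_of {d : ℕ} {P : Law d} (h : ∀ᵐ K ∂(P : Measure (Bond d → ℝ)),
    ∃ σ, GA K σ ∧ ∀ τ, GA K τ → τ = σ ∨ τ = -σ) : OnePair P := by
  unfold OnePair
  filter_upwards [h] with K hK
  obtain ⟨σ, hσ, hu⟩ := hK
  refine ⟨σ, ?_⟩
  ext τ
  rw [Set.mem_ofPred_eq, ga_iff, Set.mem_insert_iff, Set.mem_singleton_iff]
  constructor
  · exact hu τ
  · rintro (h | h)
    · rw [h]; exact hσ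
    · rw [h]
      intro n
      refine ⟨fun x => ?_, fun A hA hAB => ?_⟩
      · rw [Pi.neg_apply]
        rcases (hσ 0).1 x with h | h <;> rw [h] <;> norm_num
      · have h5 := (hσ n).2 A hA hAB
        simpa only [Pi.neg_apply, neg_mul_neg] using h5

/-- Let `d ≥ 2`. Generic stationary laws of the couplings on the bonds of `ℤ^d` have almost surely
exactly one pair of ground states: in the space of all stationary laws, and in the space of all
stationary symmetric laws, with the topology of weak convergence, the set of the laws with this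
property is residual (it contains a countable intersection of dense open sets). -/
theorem result (d : ℕ) (hd : 2 ≤ d) :
    {P : {P : Law d // Stationary P} | OnePair P.1} ∈ residual {P : Law d // Stationary P} ∧
    {P : {P : Law d // Stationary P ∧ Symmetric P} | OnePair P.1} ∈
      residual {P : Law d // Stationary P ∧ Symmetric P} := by
  constructor
  · refine Filter.mem_of_superset (generic hd (fun P => Stationary P) (fun P hP => hP)
      (fun P hP j δ η x => pert_stat (hP x) j δ η)) ?_
    intro P hP
    exact onePair_of hP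
  · refine Filter.mem_of_superset (generic hd (fun P => Stationary P ∧ Symmetric P)
      (fun P hP => hP.1) (fun P hP j δ η => ⟨fun x => pert_stat (hP.1 x) j δ η, fun b => ?_⟩)) ?_
    · have h1 := hP.2 b
      rw [flip_eq] at h1 ⊢
      exact pert_flip h1 j δ η
    · intro P hP
      exact onePair_of hP

end Pool.Agent.Results.MP_37ff18_mp.GenericStationaryLaws
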