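import Pool.Agent.U112.EA.Inf

/-!
# Edwards-Anderson ground states on `ℤ^d`: no local rule

Couplings iid, symmetric and atomless on the bonds of `ℤ^d`, `d ≥ 2`. A rule which knows the
absolute values of all couplings, and the signs of the couplings in a box of radius `r`, cannot give
the bonds of the ground states (which bonds are satisfied, up to an error probability of order
`1 / r` for a single site). Hence if the bonds of the ground states are coded by the signs of the
couplings with a random radius, this radius has infinite mean.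
-/

set_option autoImplicit false

open MeasureTheory

namespace Pool.Agent.Results.MP_37ff18_mp.NoLocalRule

variable {d : ℕ}

/-- The sites of `ℤ^d`. -/
abbrev Site (d : ℕ) : Type := Fin d → ℤ

/-- The bond `(v, i)` joins `v` and `v + e_i`. -/
abbrev Bond (d : ℕ) : Type := (Fin d → ℤ) × Fin d

/-- The other endpoint `v + e_i` of the bond `(v, i)`. -/
def far (e : Bond d) : Site d := e.1 + (Pi.single e.2 (1 : ℤ) : Fin d → ℤ)

/-- Spin configurations. -/
def IsSpin (σ : Site d → ℝ) : Prop := ∀ x, σ x = 1 ∨ σ x = -1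

/-- `x` is in the box of radius `r` around `w`. -/
def InBox (w : Site d) (r : ℕ) (x : Site d) : Prop := ∀ i, |x i - w i| ≤ r

/-- `σ` is an infinite-volume ground state for the couplings `J`: every change at finitely many
sites (at least one) increases the energy `-∑ J_e σ σ` (the sum of the differences over all bonds
is a finite sum). -/
def IsGroundState (J : Bond d → ℝ) (σ : Site d → ℝ) : Prop :=
  IsSpin σ ∧ ∀ ρ : Site d → ℝ, IsSpin ρ → {x | ρ x ≠ σ x}.Finite → ρ ≠ σ →
    0 < ∑ᶠ e : Bond d, J e * (σ e.1 * σ (far e) - ρ e.1 * ρ (far e))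

/-- `σ` is the ground state of the box of radius `M` around `0` with boundary condition `η`: it
equals `η` outside the box, and every other spin configuration which equals `η` outside the box has
a larger energy. -/
def IsGroundStateBox (J : Bond d → ℝ) (M : ℕ) (η σ : Site d → ℝ) : Prop :=
  IsSpin σ ∧ (∀ x, ¬ InBox 0 M x → σ x = η x) ∧
  ∀ ρ : Site d → ℝ, IsSpin ρ → (∀ x, ¬ InBox 0 M x → ρ x = η x) → ρ ≠ σ →
    0 < ∑ᶠ e : Bond d, J e * (σ e.1 * σ (far e) - ρ e.1 * ρ (far e))

/-- `J` and `J'` look the same from the box of radius `r` around `w`: they have the same absolute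
values on all bonds, and the same values on the bonds with an endpoint in the box. -/
def SameView (w : Site d) (r : ℕ) (J J' : Bond d → ℝ) : Prop :=
  (∀ e, |J e| = |J' e|) ∧ ∀ e, InBox w r e.1 ∨ InBox w r (far e) → J e = J' e

/-- The rule `f` only uses the absolute values of all couplings and the signs of the couplings on
the bonds with an endpoint in the box of radius `r` around `w`. -/
def IsLocal (w : Site d) (r : ℕ) (f : (Bond d → ℝ) → Bond d → ℝ) : Prop :=
  ∀ J J' : Bond d → ℝ, SameView w r J J' → f J = f J'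

/-- The guess `g` is wrong for `σ` on a bond `(v, i)` with `v` in the box of radius `n` around
`w`. -/
def Fails (w : Site d) (n : ℕ) (g : Bond d → ℝ) (σ : Site d → ℝ) : Prop :=
  ∃ e : Bond d, InBox w n e.1 ∧ g e ≠ σ e.1 * σ (far e)

open Classical in
/-- The gauge transformation at the site `x`, for the couplings. -/
noncomputable def gaugeJ (x : Site d) (J : Bond d → ℝ) (e : Bond d) : ℝ :=
  if e.1 = x ∨ far e = x then -J e else J e

open Classical in
/-- The gauge transformation at the site `x`, for the spins. -/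
noncomputable def gaugeS (x : Site d) (σ : Site d → ℝ) (y : Site d) : ℝ :=
  if y = x then -σ y else σ y

open Pool.Agent.R239.EA Pool.Agent.U112.EA

lemma far_eq (e : Bond d) : far e = nx e := rfl

lemma inBox_iff {w x : Site d} {r : ℕ} : InBox w r x ↔ x ∈ bx w r := mem_bx'.symm

lemma inBox_nrm {w x : Site d} {r : ℕ} : InBox w r x ↔ nrm (x - w) ≤ r := by
  rw [inBox_iff, mem_bx]

lemma inBox_nrm0 {x : Site d} {r : ℕ} : InBox 0 r x ↔ nrm x ≤ r := by
  rw [inBox_nrm, sub_zero]

lemma ga_iff {J : Bond d → ℝ} {σ : Site d → ℝ} : IsGroundState J σ ↔ GA J σ := by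
  rw [GA_iff]
  rfl

lemma bg_iff {J : Bond d → ℝ} {M : ℕ} {η σ : Site d → ℝ} :
    IsGroundStateBox J M η σ ↔ BG M η J σ := by
  unfold BG
  rw [GI_iff]
  constructor
  · rintro ⟨h1, h2, h3⟩
    refine ⟨⟨h1, fun ρ hρ hB hne => h3 ρ hρ (fun x hx => ?_) hne⟩, fun x hx => h2 x ?_⟩
    · by_contra hc
      have h4 : ρ x ≠ σ x := fun h => hc (h.trans (h2 x hx))
      exact hx (inBox_iff.2 (hB x h4))
    · rwa [inBox_iff]
  · rintro ⟨⟨h1, h2⟩, h3⟩
    refine ⟨h1, fun x hx => h3 x ?_, fun ρ hρ hB hne => h2 ρ hρ (fun x hx => ?_) hne⟩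
    · rwa [inBox_iff] at hx
    · by_contra hc
      exact hx ((hB x (by rwa [inBox_iff])).trans (h3 x hc).symm)

lemma tb_iff {w : Site d} {r : ℕ} {e : Bond d} :
    e ∈ tb w r ↔ InBox w r e.1 ∨ InBox w r (far e) := by
  rw [mem_tb, inBox_iff, inBox_iff, far_eq]

lemma fails_iff {w : Site d} {n : ℕ} {g : Bond d → ℝ} {σ : Site d → ℝ} :
    Fails w n g σ ↔ ∃ e : Bond d, nrm (e.1 - w) ≤ n ∧ g e ≠ σ e.1 * σ (nx e) := by
  unfold Fails
  simp only [inBox_nrm, far_eq]

lemma fails0_iff {n : ℕ} {f : (Bond d → ℝ) → Bond d → ℝ} {J : Bond d → ℝ} {σ : Site d → ℝ} :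
    Fails 0 n (f J) σ ↔ Bad0 f n J σ := by
  rw [fails_iff]
  unfold Bad0
  simp only [sub_zero]

lemma gaugeJ_eq (x : Site d) (J : Bond d → ℝ) : gaugeJ x J = flS (dC {x}) J := by
  funext e
  unfold gaugeJ flS dC
  have h : ¬ (e.1 = x ∧ nx e = x) := by
    rintro ⟨h1, h2⟩
    have h3 := congrFun (h2.trans h1.symm) e.2
    unfold nx at h3
    rw [Pi.add_apply, u_same] at h3
    omega
  have h2 : (e.1 = x ∨ far e = x) ↔ e ∈ {e : Bond d | ¬ (e.1 ∈ ({x} : Set (Site d)) ↔
      nx e ∈ ({x} : Set (Site d)))} := by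
    rw [far_eq]
    simp only [Set.mem_ofPred_eq, Set.mem_singleton_iff]
    tauto
  by_cases h3 : e.1 = x ∨ far e = x
  · rw [if_pos h3, if_pos (h2.1 h3)]
  · rw [if_neg h3, if_neg (fun h4 => h3 (h2.2 h4))]

lemma gaugeS_eq (x : Site d) (σ : Site d → ℝ) : gaugeS x σ = Pool.Agent.R239.EA.flip {x} σ := by
  funext y
  unfold gaugeS Pool.Agent.R239.EA.flip
  simp only [Set.mem_singleton_iff]

/-- Let the couplings `J` on the bonds of `ℤ^d`, `d ≥ 2`, be iid with a symmetric atomless law `μ`,
and let `n ≤ r` and `2 r + 3 ≤ m (2 n + 1)`. The rules below guess bonds; they may use the absolute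
values of all couplings, but the signs only from the box of radius `r`. Probabilities of
non-measurable events are outer probabilities.

(1) Every rule gives, with probability at least `1 / (8 m)`, a wrong bond `(v, i)`, `v` in the box
of radius `n`, for some infinite-volume ground state.

(2) Let `F` be a coding with radius `R`, possibly infinite (`F J` on the bonds of the box of radius
`n` is determined by the absolute values of all couplings and the signs in the box of radius `R J`),
which is almost surely correct in the box of radius `n` for all infinite-volume ground states. Then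
`R > r` with probability at least `1 / (8 m)`, and `R`, if measurable, has infinite mean.

(3) The same for finite boxes of radius `M` around `0` and all boundary conditions chosen in
advance: rules `f w` for the boxes around `w`, depending on `w`, have a failure probability at least
`1 / (8 m)` for a `w` at distance at most `m (2 n + 1)` from any given `c` which is not too close to
the boundary.

(4) The same for all random spin configurations `σ` (ground states or not) whose joint law with
`J` and a hint `s`, independent of `J` but possibly not of `σ`, is invariant under the gauge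
transformations at the sites of the box of radius `M` (the hint is not changed); the measurable
rules `f w` may also use `s`. -/
theorem result (d : ℕ) (hd : 2 ≤ d) (μ : Measure ℝ) [IsProbabilityMeasure μ]
    (hμ : ∀ x, μ {x} = 0) (hsym : μ.map (fun x => -x) = μ) (n : ℕ) :
    (∀ r m : ℕ, n ≤ r → 2 * r + 3 ≤ m * (2 * n + 1) →
      ∀ f : (Bond d → ℝ) → Bond d → ℝ, IsLocal 0 r f →
      1 / (8 * (m : ENNReal)) ≤ Measure.infinitePi (fun _ : Bond d => μ)
        {J | ∃ σ, IsGroundState J σ ∧ Fails 0 n (f J) σ}) ∧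
    (∀ (F : (Bond d → ℝ) → Bond d → ℝ) (R : (Bond d → ℝ) → ℕ∞),
      (∀ (k : ℕ) (J J' : Bond d → ℝ), R J ≤ k → SameView 0 k J J' →
        ∀ e : Bond d, InBox 0 n e.1 → F J e = F J' e) →
      (∀ᵐ J ∂(Measure.infinitePi fun _ : Bond d => μ),
        ∀ σ, IsGroundState J σ → ¬ Fails 0 n (F J) σ) →
      (∀ r m : ℕ, n ≤ r → 2 * r + 3 ≤ m * (2 * n + 1) →
        1 / (8 * (m : ENNReal)) ≤ Measure.infinitePi (fun _ : Bond d => μ) {J | r < R J}) ∧
      ((∀ k : ℕ, MeasurableSet {J | R J ≤ k}) →
        ∫⁻ J, (R J : ENNReal) ∂(Measure.infinitePi fun _ : Bond d => μ) = ⊤)) ∧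
    (∀ r m M : ℕ, n ≤ r → 2 * r + 3 ≤ m * (2 * n + 1) →
      ∀ c : Site d, (∀ i, |c i| + (m * (2 * n + 1) + r + 1) ≤ M) →
      ∀ η : Site d → ℝ, IsSpin η →
      ∀ f : Site d → (Bond d → ℝ) → Bond d → ℝ, (∀ w, IsLocal w r (f w)) →
      ∃ w : Site d, InBox c (m * (2 * n + 1)) w ∧
        1 / (8 * (m : ENNReal)) ≤ Measure.infinitePi (fun _ : Bond d => μ)
          {J | ∃ σ, IsGroundStateBox J M η σ ∧ Fails w n (f w J) σ}) ∧
    (∀ r m M : ℕ, n ≤ r → 2 * r + 3 ≤ m * (2 * n + 1) →
      ∀ c : Site d, (∀ i, |c i| + (m * (2 * n + 1) + r + 1) ≤ M) →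
      ∀ (U : Type) [MeasurableSpace U] (ρ : Measure U) [IsProbabilityMeasure ρ]
        (Q : Measure (((Bond d → ℝ) × U) × (Site d → ℝ))) [IsProbabilityMeasure Q],
      Q.map (fun z => z.1) = (Measure.infinitePi fun _ : Bond d => μ).prod ρ →
      (∀ᵐ z ∂Q, IsSpin z.2) →
      (∀ x : Site d, InBox 0 M x →
        Q.map (fun z => ((gaugeJ x z.1.1, z.1.2), gaugeS x z.2)) = Q) →
      ∀ f : Site d → (Bond d → ℝ) × U → Bond d → ℝ, (∀ w s, IsLocal w r fun J => f w (J, s)) →
      (∀ w e, Measurable fun y => f w y e) →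
      ∃ w : Site d, InBox c (m * (2 * n + 1)) w ∧
        1 / (8 * (m : ENNReal)) ≤ Q {z | Fails w n (f w z.1) z.2}) := by
  set i : Fin d := ⟨0, by omega⟩ with hi
  set j : Fin d := ⟨1, by omega⟩ with hj
  have hij : i ≠ j := by
    intro h
    have := congrArg Fin.val h
    simp [hi, hj] at this
  have hmpos : ∀ {r m : ℕ}, 2 * r + 3 ≤ m * (2 * n + 1) → 0 < m := by
    intro r m h1
    rcases Nat.eq_zero_or_pos m with h | h
    · subst h; omega
    · exact h
  have hcM : ∀ {r m M : ℕ} {c : Site d}, (∀ i, |c i| + (m * (2 * n + 1) + r + 1) ≤ M) →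
      nrm c + m * (2 * n + 1) + r + 1 ≤ M := by
    intro r m M c h
    have h0 : m * (2 * n + 1) + r + 1 ≤ M := by
      have h1 := h i
      have h2 := abs_nonneg (c i)
      have h3 : ((m * (2 * n + 1) + r + 1 : ℕ) : ℤ) ≤ M := by push_cast; linarith
      exact_mod_cast h3
    have h4 : nrm c ≤ M - (m * (2 * n + 1) + r + 1) := by
      rw [nrm_le]
      intro a
      have h5 := h a
      rw [Nat.cast_sub h0]
      push_cast
      linarith
    omega
  have hlocS : ∀ {r : ℕ} {f : Site d → (Bond d → ℝ) → Bond d → ℝ}, (∀ w, IsLocal w r (f w)) →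
      LocS f r := by
    intro r f hf w J J' h1 h2 e
    exact congrFun (hf w J J' ⟨h1, fun e he => h2 e (tb_iff.2 he)⟩) e
  refine ⟨?_, ?_, ?_, ?_⟩
  · intro r m hnr hm f hf
    have h := inf_vol (d := d) μ hd hμ hsym hnr hm (f := f)
      (fun J J' h1 h2 e => congrFun (hf J J' ⟨h1, fun e he => h2 e (tb_iff.2 he)⟩) e)
    simp only [ga_iff, fails0_iff]
    exact h
  · intro F R hR hF
    have hR' : ∀ (r : ℕ) (J J' : Bond d → ℝ), R J ≤ r → (∀ e, |J e| = |J' e|) →
        (∀ e ∈ tb 0 r, J e = J' e) → ∀ e : Bond d, nrm e.1 ≤ n → F J e = F J' e :=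
      fun r J J' h1 h2 h3 e he => hR r J J' h1 ⟨h2, fun e he => h3 e (tb_iff.2 he)⟩ e
        (inBox_nrm0.2 he)
    have hF' : ∀ᵐ J ∂(Lw μ d), ∀ σ, GA J σ → ¬ Bad0 F n J σ := by
      simp only [ga_iff, fails0_iff] at hF
      exact hF
    exact ⟨fun r m hnr hm => coding (d := d) μ hd hμ hsym hR' hF' hnr hm,
      fun hRm => coding_mean (d := d) μ hd hμ hsym hRm hR' hF'⟩
  · intro r m M hnr hm c hc η hη f hf
    obtain ⟨w, hw, h⟩ := exists_w (c := c) (T := m * (2 * n + 1)) (hmpos hm)
      (p := fun w => Lw μ d {J | ∃ σ, BG M η J σ ∧ Bad f n w J σ})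
      fun q hq => rel (R := BG M η) (F := f) (c := c) μ hsym (fun J σ h => h.1.1)
        (by
          filter_upwards [gn_ae (d := d) μ hμ] with J hJ
          exact exists_BG hd hJ M hη) (fun G hG J σ h => h.gauge hG) hij hnr hm (hcM hc)
        (hlocS hf) q hq
    refine ⟨w, inBox_nrm.2 hw, ?_⟩
    simp only [bg_iff, fails_iff]
    exact h
  · intro r m M hnr hm c hc U _ ρ _ Q _ hfst hspin hgauge f hf hmeas
    obtain ⟨w, hw, h⟩ := exists_w (c := c) (T := m * (2 * n + 1)) (hmpos hm)
      (p := fun w => Q (BS f n w))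
      fun q hq => general (d := d) μ hsym (ρ := ρ) (Q := Q) hfst hspin (M := M)
        (by
          intro x hx
          have h1 := hgauge x (inBox_iff.2 hx)
          simp only [gaugeJ_eq, gaugeS_eq] at h1
          exact h1) hij hnr hm (hcM hc)
        (fun s w J J' h1 h2 e => congrFun (hf w s J J' ⟨h1, fun e he => h2 e (tb_iff.2 he)⟩) e)
        hmeas q hq
    refine ⟨w, inBox_nrm.2 hw, ?_⟩
    simp only [fails_iff]
    exact h

end Pool.Agent.Results.MP_37ff18_mp.NoLocalRule
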