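import Pool.Agent.U47.EAT.WGrowth
import Pool.Agent.U47.EAT.Flat

/-!
# Edwards-Anderson ground states on `ℤ^d`: domain walls are not flat

For iid couplings on the bonds of `ℤ^d`, `d ≥ 2`, whose law takes values of very different size,
almost surely no domain wall between two incongruent ground states stays in tubes around polynomial
curves perturbed by lattice curves of small variation, and more generally in a set of a given family
of thin sets with small exponential entropy. In every dimension, no interface stays at bounded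
distance from the graph of a function which is of this form on one coordinate axis.
-/

set_option autoImplicit false

open MeasureTheory Filter Topology

namespace Pool.Agent.Results.MP_37ff18_mp.PolynomialTubes

/-- `σ` is an infinite-volume ground state for the couplings `J`; the bond `(v, i)` joins `v` and
`v + e_i`. Every change at finitely many sites (at least one) increases the energy
`-∑ J_e σ σ` (the sum of the differences over all bonds is a finite sum). -/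
def IsGroundState {d : ℕ} (J : (Fin d → ℤ) × Fin d → ℝ) (σ : (Fin d → ℤ) → ℝ) : Prop :=
  (∀ x, σ x = 1 ∨ σ x = -1) ∧
  ∀ ρ : (Fin d → ℤ) → ℝ, (∀ x, ρ x = 1 ∨ ρ x = -1) → {x | ρ x ≠ σ x}.Finite → ρ ≠ σ →
    0 < ∑ᶠ e : (Fin d → ℤ) × Fin d,
      J e * (σ e.1 * σ (e.1 + (Pi.single e.2 (1 : ℤ) : Fin d → ℤ))
        - ρ e.1 * ρ (e.1 + (Pi.single e.2 (1 : ℤ) : Fin d → ℤ)))

/-- No domain wall in `S`: if `σ, τ` are ground states with `τ ≠ σ` and `τ ≠ -σ`, then there is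
a bond with no end in `S` on which `σ` and `τ` disagree (the spins at its ends are equal for one of
them and different for the other). -/
def NoWallIn {d : ℕ} (J : (Fin d → ℤ) × Fin d → ℝ) (S : Set (Fin d → ℤ)) : Prop :=
  ∀ σ τ : (Fin d → ℤ) → ℝ, IsGroundState J σ → IsGroundState J τ → τ ≠ σ → τ ≠ -σ →
    ∃ (v : Fin d → ℤ) (i : Fin d), v ∉ S ∧ v + (Pi.single i (1 : ℤ) : Fin d → ℤ) ∉ S ∧
      σ v * σ (v + (Pi.single i (1 : ℤ) : Fin d → ℤ)) ≠
        τ v * τ (v + (Pi.single i (1 : ℤ) : Fin d → ℤ))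

/-- No interface in `S`: if `σ, τ` are ground states and every bond on which they disagree has an
end in `S`, then `τ = σ` outside `S` or `τ = -σ` outside `S`. -/
def NoInterfaceIn {d : ℕ} (J : (Fin d → ℤ) × Fin d → ℝ) (S : Set (Fin d → ℤ)) : Prop :=
  ∀ σ τ : (Fin d → ℤ) → ℝ, IsGroundState J σ → IsGroundState J τ →
    (∀ (v : Fin d → ℤ) (i : Fin d), v ∉ S → v + (Pi.single i (1 : ℤ) : Fin d → ℤ) ∉ S →
      σ v * σ (v + (Pi.single i (1 : ℤ) : Fin d → ℤ)) =
        τ v * τ (v + (Pi.single i (1 : ℤ) : Fin d → ℤ))) →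
    (∀ x, x ∉ S → τ x = σ x) ∨ ∀ x, x ∉ S → τ x = -σ x

/-- The union of the tubes around the `m` curves `x_i = p l i (x_j) + f l i (x_j)` (all `i ≠ j`),
`l < m`, with polynomials `p l i` and functions `f l i`; the radius of the tubes at `x` is
`w |x_j|`. -/
def Tubes {d : ℕ} (j : Fin d) (w : ℕ → ℕ) {m : ℕ} (p : Fin m → Fin d → Polynomial ℝ)
    (f : Fin m → Fin d → ℤ → ℤ) : Set (Fin d → ℤ) :=
  {x | ∃ l, ∀ i, i ≠ j →
    |(x i : ℝ) - ((p l i).eval (x j : ℝ) + f l i (x j))| ≤ w (x j).natAbs}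

/-- The part `|x_j| ≤ N` of every set of the family `𝓕` is contained in one of at most `c` sets
which have at most `M` points in each of the hyperplanes `x_j = n`, `|n| ≤ N`. -/
def Covered {d : ℕ} (𝓕 : Set (Set (Fin d → ℤ))) (j : Fin d) (M : ℕ) (c : ℝ) (N : ℕ) : Prop :=
  ∃ 𝓖 : Finset (Set (Fin d → ℤ)), (𝓖.card : ℝ) ≤ c ∧
    (∀ G ∈ 𝓖, ∀ n : ℤ, |n| ≤ N → {x | x ∈ G ∧ x j = n}.encard ≤ M) ∧
    ∀ S ∈ 𝓕, ∃ G ∈ 𝓖, ∀ x ∈ S, |x j| ≤ N → x ∈ G

open Pool.Agent.R239.EA Pool.Agent.U47.EAT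

lemma ga_iff {d : ℕ} {J : (Fin d → ℤ) × Fin d → ℝ} {σ : (Fin d → ℤ) → ℝ} :
    IsGroundState J σ ↔ GA J σ := by
  rw [GA_iff]
  rfl

lemma noWall {d : ℕ} {J : (Fin d → ℤ) × Fin d → ℝ} {S : Set (Fin d → ℤ)}
    (h : ∀ σ τ : (Fin d → ℤ) → ℝ, GA J σ → GA J τ → WallIn σ τ S → σ = τ ∨ σ = -τ) :
    NoWallIn J S := by
  intro σ τ hσ hτ h1 h2
  rw [ga_iff] at hσ hτ
  by_contra hc
  push Not at hc
  have hw : WallIn σ τ S := by
    intro e he
    by_contra h4
    push Not at h4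
    exact (edge_iff (hσ 0).1 (hτ 0).1 e).1 he (hc e.1 e.2 h4.1 h4.2)
  rcases h σ τ hσ hτ hw with h3 | h3
  · exact h1 h3.symm
  · apply h2
    rw [h3, neg_neg]

lemma single_eq {d : ℕ} (i : Fin d) (z : ℤ) : (Pi.single i z : Fin d → ℤ) = z • u i := by
  funext k
  by_cases h : k = i
  · subst h
    rw [Pi.single_eq_same, Pi.smul_apply, u_same, smul_eq_mul, mul_one]
  · rw [Pi.single_eq_of_ne h, Pi.smul_apply, u_ne h, smul_zero]

lemma noInterface {d : ℕ} {J : (Fin d → ℤ) × Fin d → ℝ} {i : Fin d} {F : (Fin d → ℤ) → ℝ} {r : ℕ}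
    (h : ∀ σ τ : (Fin d → ℤ) → ℝ, GA J σ → GA J τ →
        (∀ e ∈ dC {x | σ x ≠ τ x}, |(e.1 i : ℝ) - F e.1| ≤ r ∨ |(nx e i : ℝ) - F (nx e)| ≤ r) →
        (∀ x : Fin d → ℤ, r < |(x i : ℝ) - F x| → σ x = τ x) ∨
          (∀ x : Fin d → ℤ, r < |(x i : ℝ) - F x| → σ x ≠ τ x)) :
    NoInterfaceIn J {x | |(x i : ℝ) - F x| ≤ r} := by
  intro σ τ hσ hτ hW
  rw [ga_iff] at hσ hτ
  have hw : ∀ e ∈ dC {x | σ x ≠ τ x}, |(e.1 i : ℝ) - F e.1| ≤ r ∨
      |(nx e i : ℝ) - F (nx e)| ≤ r := by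
    intro e he
    by_contra h4
    push Not at h4
    exact (edge_iff (hσ 0).1 (hτ 0).1 e).1 he
      (hW e.1 e.2 (fun h5 => absurd h4.1 (not_lt.2 h5)) (fun h5 => absurd h4.2 (not_lt.2 h5)))
  rcases h σ τ hσ hτ hw with h3 | h3
  · left
    intro x hx
    exact (h3 x (not_le.1 hx)).symm
  · right
    intro x hx
    have h5 := h3 x (not_le.1 hx)
    rcases (hσ 0).1 x with h6 | h6 <;> rcases (hτ 0).1 x with h7 | h7
    · exact absurd (h6.trans h7.symm) h5
    · rw [h6, h7]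
    · rw [h6, h7, neg_neg]
    · exact absurd (h6.trans h7.symm) h5

lemma exists_ne {d : ℕ} (hd : 2 ≤ d) (j : Fin d) : ∃ i : Fin d, i ≠ j := by
  by_cases h : j = ⟨0, by omega⟩
  · refine ⟨⟨1, by omega⟩, ?_⟩
    rw [h]
    intro h1
    have := congrArg Fin.val h1
    simp at this
  · exact ⟨⟨0, by omega⟩, fun h1 => h h1.symm⟩

variable {μ : Measure ℝ} [IsProbabilityMeasure μ]

lemma exists_beta (h0 : μ {0} ≠ 1) : ∃ β : ℝ, 0 < β ∧ β ≤ 1 ∧ μ {x | β ≤ |x|} ≠ 0 := by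
  by_contra hc
  push Not at hc
  apply h0
  rw [← prob_compl_eq_zero_iff (measurableSet_singleton 0)]
  have hsub : ({0} : Set ℝ)ᶜ ⊆ ⋃ n : ℕ, {x : ℝ | 1 / ((n : ℝ) + 1) ≤ |x|} := by
    intro x hx
    have hx0 : 0 < |x| := abs_pos.2 hx
    obtain ⟨n, hn⟩ := exists_nat_one_div_lt hx0
    exact Set.mem_iUnion.2 ⟨n, hn.le⟩
  refine measure_mono_null hsub (measure_iUnion_null fun n => hc _ (by positivity) ?_)
  rw [div_le_one (by positivity)]
  have : (0:ℝ) ≤ n := Nat.cast_nonneg n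
  linarith

lemma spread (h0 : μ {0} ≠ 1)
    (hμ : (∀ a : ℝ, 0 < a → μ {x | |x| ≤ a} ≠ 0) ∨ ∀ b : ℝ, μ {x | b ≤ |x|} ≠ 0) (K : ℝ)
    (hK : 0 ≤ K) : ∃ a b : ℝ, 0 ≤ a ∧ K * a < b ∧ μ {x | |x| ≤ a} ≠ 0 ∧ μ {x | b ≤ |x|} ≠ 0 := by
  rcases hμ with h | h
  · obtain ⟨β, hβ, -, h1⟩ := exists_beta h0
    refine ⟨β / (K + 1), β, by positivity, ?_, h _ (by positivity), h1⟩
    rw [mul_div_assoc', div_lt_iff₀ (by linarith)]
    nlinarith
  · have h1 : ∃ n : ℕ, μ {x : ℝ | |x| ≤ n} ≠ 0 := by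
      by_contra hc
      push Not at hc
      have h2 : μ Set.univ = 0 := by
        refine measure_mono_null ?_ (measure_iUnion_null hc)
        intro x _
        obtain ⟨n, hn⟩ := exists_nat_ge |x|
        exact Set.mem_iUnion.2 ⟨n, hn⟩
      rw [measure_univ] at h2
      exact one_ne_zero h2
    obtain ⟨n, hn⟩ := h1
    exact ⟨n, K * n + 1, Nat.cast_nonneg n, by linarith, hn, h _⟩

/-- Let the couplings on the bonds of `ℤ^d`, `d ≥ 2`, be iid with law `μ`.

(1) Let `4 d M a < b`, and let `|J_e| ≤ a` and `|J_e| ≥ b` both have positive probability. Then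
there is `ε > 0` such that for every family `𝓕` of sets of sites which is, for infinitely many `N`,
covered up to height `|x_j| ≤ N` by at most `e^{ε N}` sets with at most `M` points in every
hyperplane `x_j = n`, almost surely there is no domain wall in a set of `𝓕`.

(2) Let `μ` be not the point mass at `0`, and let `0` be in the support of `μ` or the support be
unbounded. Then there are `δ r m > 0` such that almost surely, for every direction `j`, radius `r`
and number `m`, there is no domain wall in the union of `m` tubes of radius `r` around curves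
`x_i = p_i(x_j) + f_i(x_j)`, `i ≠ j`, with polynomials `p_i` and functions `f_i : ℤ → ℤ` whose
variation between `-N` and `N` is at most `δ r m * N + B` for all `N`, for some `B` which depends on
the curves. In particular this holds for all polynomial curves (`f = 0`).

(3) Let `μ` be not the point mass at `0`, and `μ {|x| ≤ t} ≥ c t^α` for `0 < t ≤ 1`. Let `w` be
nondecreasing with `w(N)^(d-1) log log N / log N → 0`. Then almost surely there is no domain wall in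
a finite union of tubes of radius `w (|x_j|)` around polynomial curves.

(4) Let `μ` be as in (2). Then there are `δ r > 0` such that almost surely, for all directions
`i ≠ j`, radii `r` and functions `F` of the coordinates other than `x_i` with
`F(n e_j) = p(n) + f(n)` for a polynomial `p` and a function `f : ℤ → ℤ` whose variation between
`-N` and `N` is at most `δ r * N + B` for all `N`, for some `B`, there is no interface in
`|x_i - F(x)| ≤ r`. -/
theorem result (d : ℕ) (hd : 2 ≤ d) (μ : Measure ℝ) [IsProbabilityMeasure μ] :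
    (∀ (j : Fin d) (M : ℕ) (a b : ℝ), 0 ≤ a → 4 * d * M * a < b → μ {x | |x| ≤ a} ≠ 0 →
      μ {x | b ≤ |x|} ≠ 0 → ∃ ε : ℝ, 0 < ε ∧ ∀ 𝓕 : Set (Set (Fin d → ℤ)),
        (∃ᶠ N : ℕ in atTop, Covered 𝓕 j M (Real.exp (ε * N)) N) →
        ∀ᵐ J ∂(Measure.infinitePi fun _ : (Fin d → ℤ) × Fin d => μ), ∀ S ∈ 𝓕, NoWallIn J S) ∧
    (μ {0} ≠ 1 → ((∀ a : ℝ, 0 < a → μ {x | |x| ≤ a} ≠ 0) ∨ ∀ b : ℝ, μ {x | b ≤ |x|} ≠ 0) →
      ∃ δ : ℕ → ℕ → ℝ, (∀ r m, 0 < δ r m) ∧
        ∀ᵐ J ∂(Measure.infinitePi fun _ : (Fin d → ℤ) × Fin d => μ),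
          ∀ (j : Fin d) (r m : ℕ) (p : Fin m → Fin d → Polynomial ℝ)
            (f : Fin m → Fin d → ℤ → ℤ),
            (∃ B : ℝ, ∀ l i, ∀ N : ℕ,
              ((∑ n ∈ Finset.Ico (-(N : ℤ)) N, |f l i (n + 1) - f l i n| : ℤ) : ℝ) ≤
                δ r m * N + B) →
            NoWallIn J (Tubes j (fun _ => r) p f)) ∧
    (μ {0} ≠ 1 → ∀ c α : ℝ, 0 < c → 0 ≤ α →
      (∀ t : ℝ, 0 < t → t ≤ 1 → ENNReal.ofReal (c * t ^ α) ≤ μ {x | |x| ≤ t}) →
      ∀ w : ℕ → ℕ, Monotone w →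
        Tendsto (fun N : ℕ => (w N : ℝ) ^ (d - 1) * Real.log (Real.log N) / Real.log N)
          atTop (𝓝 0) →
        ∀ᵐ J ∂(Measure.infinitePi fun _ : (Fin d → ℤ) × Fin d => μ),
          ∀ (j : Fin d) (m : ℕ) (p : Fin m → Fin d → Polynomial ℝ),
            NoWallIn J (Tubes j w p fun _ _ _ => 0)) ∧
    (μ {0} ≠ 1 → ((∀ a : ℝ, 0 < a → μ {x | |x| ≤ a} ≠ 0) ∨ ∀ b : ℝ, μ {x | b ≤ |x|} ≠ 0) →
      ∃ δ : ℕ → ℝ, (∀ r, 0 < δ r) ∧
        ∀ᵐ J ∂(Measure.infinitePi fun _ : (Fin d → ℤ) × Fin d => μ),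
          ∀ i j : Fin d, i ≠ j → ∀ (r : ℕ) (F : (Fin d → ℤ) → ℝ) (p : Polynomial ℝ) (f : ℤ → ℤ),
            (∀ (x : Fin d → ℤ) (z : ℤ), F (x + Pi.single i z) = F x) →
            (∀ n : ℤ, F (Pi.single j n) = p.eval (n : ℝ) + f n) →
            (∃ B : ℝ, ∀ N : ℕ,
              ((∑ n ∈ Finset.Ico (-(N : ℤ)) N, |f (n + 1) - f n| : ℤ) : ℝ) ≤ δ r * N + B) →
            NoInterfaceIn J {x | |(x i : ℝ) - F x| ≤ r}) := by
  refine ⟨?_, ?_, ?_, ?_⟩
  · intro j M a b ha hab h1 h2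
    obtain ⟨i, hij⟩ := exists_ne hd j
    obtain ⟨ε, hε, h⟩ := wall μ ha hij (M := M) (b := b) (by push_cast; linarith) h1 h2
    refine ⟨ε, hε, fun 𝓕 hF => ?_⟩
    filter_upwards [h 𝓕 hF] with J hJ S hS
    exact noWall (hJ S hS)
  · intro h0 hμ
    have key : ∀ (j : Fin d) (r m : ℕ), ∃ δ : ℝ, 0 < δ ∧ ∀ R B : ℕ, ∀ᵐ J ∂(Lw μ d),
        ∀ S ∈ Fam2 j r m R B δ, ∀ σ τ : (Fin d → ℤ) → ℝ, GA J σ → GA J τ →
          WallIn σ τ S → σ = τ ∨ σ = -τ := by
      intro j r m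
      obtain ⟨i, hij⟩ := exists_ne hd j
      obtain ⟨a, b, ha, hab, h1, h2⟩ := spread h0 hμ
        (2 * d * (2 * (m * (2 * (r + 1) + 1) ^ (d - 1)) : ℕ)) (by positivity)
      obtain ⟨ε, hε, h⟩ := wall μ ha hij hab h1 h2
      obtain ⟨δ, hδ, hn⟩ := net2 j r m hε
      exact ⟨δ, hδ, fun R B => h _ (Eventually.frequently (hn R B))⟩
    choose δ hδ0 hδ using key
    obtain ⟨j0⟩ : Nonempty (Fin d) := ⟨⟨0, by omega⟩⟩
    refine ⟨fun r m => Finset.univ.inf' ⟨j0, Finset.mem_univ _⟩ fun j => δ j r m,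
      fun r m => (Finset.lt_inf'_iff _).2 fun j _ => hδ0 j r m, ?_⟩
    have key2 : ∀ᵐ J ∂(Lw μ d), ∀ (j : Fin d) (r m R B : ℕ), ∀ S ∈ Fam2 j r m R B (δ j r m),
        ∀ σ τ : (Fin d → ℤ) → ℝ, GA J σ → GA J τ → WallIn σ τ S → σ = τ ∨ σ = -τ := by
      simp only [ae_all_iff]
      exact fun j r m R B => hδ j r m R B
    filter_upwards [key2] with J hJ j r m p f hf
    obtain ⟨R, B, h⟩ := mem_Fam2 j r p f (δ := δ j r m) (by
      obtain ⟨B, hB⟩ := hf
      refine ⟨B, fun l i N => (hB l i N).trans (add_le_add (mul_le_mul_of_nonneg_right ?_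
        (Nat.cast_nonneg N)) le_rfl)⟩
      exact Finset.inf'_le _ (Finset.mem_univ j))
    exact noWall (hJ j r m R B _ h)
  · intro h0 c α hc hα hμ w hw hg
    obtain ⟨β, hβ0, hβ1, hβ⟩ := exists_beta h0
    have key : ∀ (j : Fin d) (m R B : ℕ), ∀ᵐ J ∂(Lw μ d), ∀ S ∈ Fam j w m R B,
        ∀ σ τ : (Fin d → ℤ) → ℝ, GA J σ → GA J τ → WallIn σ τ S → σ = τ ∨ σ = -τ := by
      intro j m R B
      obtain ⟨i, hij⟩ := exists_ne hd j
      refine wgrowth μ hc hα hμ hβ0 hβ1 hβ hij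
        (fun N => m * (2 * (w N + R + 1) + 1) ^ (d - 1))
        (fun N => 2 * m * (2 * (w N + R + 1) + 1) ^ (d - 1)) (fun N => (mul_assoc _ _ _).symm.le)
        ?_ _ (Eventually.frequently (net j hw m R B))
      have hLN : Tendsto (fun N : ℕ => Real.log N) atTop atTop :=
        Real.tendsto_log_atTop.comp tendsto_natCast_atTop_atTop
      have h1 : Tendsto (fun N : ℕ => Real.log (Real.log N) / Real.log N) atTop (𝓝 0) := by
        have h2 : Tendsto (fun x : ℝ => Real.log x / x) atTop (𝓝 0) :=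
          Real.isLittleO_log_id_atTop.tendsto_div_nhds_zero
        exact h2.comp hLN
      have h3 : Tendsto (fun N : ℕ => (2 * m * (2 * R + 5) ^ (d - 1) : ℝ) *
          (Real.log (Real.log N) / Real.log N +
            (w N : ℝ) ^ (d - 1) * Real.log (Real.log N) / Real.log N)) atTop (𝓝 0) := by
        have := (h1.add hg).const_mul (2 * m * (2 * R + 5) ^ (d - 1) : ℝ)
        simpa using this
      refine squeeze_zero' ?_ ?_ h3
      · filter_upwards [tendsto_LL.eventually_ge_atTop 0, hLN.eventually_gt_atTop 0]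
          with N h4 h5
        positivity
      · filter_upwards [tendsto_LL.eventually_ge_atTop 0, hLN.eventually_gt_atTop 0]
          with N h4 h5
        have h6 : ((2 * m * (2 * (w N + R + 1) + 1) ^ (d - 1) : ℕ) : ℝ) ≤
            (2 * m * (2 * R + 5) ^ (d - 1) : ℝ) * (1 + (w N : ℝ) ^ (d - 1)) := by
          have h7 : (2 * (w N + R + 1) + 1) ^ (d - 1) ≤
              (2 * R + 5) ^ (d - 1) * (1 + w N ^ (d - 1)) := by
            rcases Nat.eq_zero_or_pos (w N) with h8 | h8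
            · rw [h8]
              calc (2 * (0 + R + 1) + 1) ^ (d - 1) ≤ (2 * R + 5) ^ (d - 1) :=
                    Nat.pow_le_pow_left (by omega) _
                _ ≤ _ := Nat.le_mul_of_pos_right _ (by positivity)
            · calc (2 * (w N + R + 1) + 1) ^ (d - 1) ≤ ((2 * R + 5) * w N) ^ (d - 1) :=
                    Nat.pow_le_pow_left (by nlinarith) _
                _ = (2 * R + 5) ^ (d - 1) * w N ^ (d - 1) := mul_pow _ _ _
                _ ≤ _ := Nat.mul_le_mul_left _ (by omega)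
          have h9 : ((2 * m * (2 * (w N + R + 1) + 1) ^ (d - 1) : ℕ) : ℝ) ≤
              ((2 * m * ((2 * R + 5) ^ (d - 1) * (1 + w N ^ (d - 1))) : ℕ) : ℝ) := by
            exact_mod_cast Nat.mul_le_mul_left (2 * m) h7
          refine h9.trans (le_of_eq ?_)
          push_cast
          ring
        calc ((2 * m * (2 * (w N + R + 1) + 1) ^ (d - 1) : ℕ) : ℝ) * Real.log (Real.log N) /
              Real.log N
            = ((2 * m * (2 * (w N + R + 1) + 1) ^ (d - 1) : ℕ) : ℝ) *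
              (Real.log (Real.log N) / Real.log N) := by ring
          _ ≤ (2 * m * (2 * R + 5) ^ (d - 1) : ℝ) * (1 + (w N : ℝ) ^ (d - 1)) *
              (Real.log (Real.log N) / Real.log N) :=
              mul_le_mul_of_nonneg_right h6 (by positivity)
          _ = _ := by ring
    have key2 : ∀ᵐ J ∂(Lw μ d), ∀ (j : Fin d) (m R B : ℕ), ∀ S ∈ Fam j w m R B,
        ∀ σ τ : (Fin d → ℤ) → ℝ, GA J σ → GA J τ → WallIn σ τ S → σ = τ ∨ σ = -τ := by
      simp only [ae_all_iff]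
      exact fun j m R B => key j m R B
    filter_upwards [key2] with J hJ j m p
    obtain ⟨R, B, h⟩ := mem_Fam j w p
    have h1 : Tubes j w p (fun _ _ _ => 0) = Tub j w p := by
      unfold Tubes Tub
      simp only [Int.cast_zero, add_zero]
    rw [h1]
    exact noWall (hJ j m R B _ h)
  · intro h0 hμ
    have key : ∀ (i j : Fin d) (r : ℕ), ∃ δ : ℝ, 0 < δ ∧ ∀ᵐ J ∂(Lw μ d), i ≠ j →
        ∀ (F : (Fin d → ℤ) → ℝ) (p : Polynomial ℝ) (f : ℤ → ℤ),
        (∀ (x : Fin d → ℤ) (z : ℤ), F (x + z • u i) = F x) →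
        (∀ n : ℤ, F (n • u j) = p.eval (n : ℝ) + f n) →
        (∃ B : ℝ, ∀ N : ℕ,
          ((∑ n ∈ Finset.Ico (-(N : ℤ)) N, |f (n + 1) - f n| : ℤ) : ℝ) ≤ δ * N + B) →
        ∀ σ τ : (Fin d → ℤ) → ℝ, GA J σ → GA J τ →
          (∀ e ∈ dC {x | σ x ≠ τ x}, |(e.1 i : ℝ) - F e.1| ≤ r ∨
            |(nx e i : ℝ) - F (nx e)| ≤ r) →
          (∀ x : Fin d → ℤ, r < |(x i : ℝ) - F x| → σ x = τ x) ∨
            (∀ x : Fin d → ℤ, r < |(x i : ℝ) - F x| → σ x ≠ τ x) := by
      intro i j r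
      by_cases hij : i ≠ j
      · obtain ⟨a, b, ha, hab, h1, h2⟩ := spread h0 hμ
          (2 * d * (2 * (1 * (2 * (r + 1) + 1) ^ (d - 1)) : ℕ)) (by positivity)
        obtain ⟨δ, hδ, h⟩ := flat μ ha hij r hab h1 h2
        refine ⟨δ, hδ, ?_⟩
        filter_upwards [h] with J hJ _
        exact hJ
      · exact ⟨1, one_pos, Eventually.of_forall fun J h => absurd h hij⟩
    choose δ hδ0 hδ using key
    obtain ⟨j0⟩ : Nonempty (Fin d) := ⟨⟨0, by omega⟩⟩
    refine ⟨fun r => Finset.univ.inf' ⟨(j0, j0), Finset.mem_univ _⟩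
      fun ij : Fin d × Fin d => δ ij.1 ij.2 r,
      fun r => (Finset.lt_inf'_iff _).2 fun ij _ => hδ0 ij.1 ij.2 r, ?_⟩
    have key2 := ae_all_iff.2 fun i => ae_all_iff.2 fun j => ae_all_iff.2 fun r => hδ i j r
    filter_upwards [key2] with J hJ i j hij r F p f hF hp hf
    refine noInterface (hJ i j r hij F p f ?_ ?_ ?_)
    · intro x z
      rw [← single_eq]; exact hF x z
    · intro n
      rw [← single_eq]; exact hp n
    · obtain ⟨B, hB⟩ := hf
      refine ⟨B, fun N => (hB N).trans (add_le_add (mul_le_mul_of_nonneg_right ?_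
        (Nat.cast_nonneg N)) le_rfl)⟩
      exact Finset.inf'_le (f := fun ij : Fin d × Fin d => δ ij.1 ij.2 r) (Finset.mem_univ (i, j))

end Pool.Agent.Results.MP_37ff18_mp.PolynomialTubes
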