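import Pool.Agent.U708.EA.Count

/-!
# Edwards-Anderson ground states when the couplings are rescaled on a set of bonds of density zero
-/

set_option autoImplicit false

open MeasureTheory Filter Topology

namespace Pool.Agent.Results.MP_37ff18_mp.ZeroDensityRescaling

/-- The bond `(v, i)` joins the sites `v` and `v + e_i` of `ℤ^d`. -/
abbrev Bond (d : ℕ) : Type := (Fin d → ℤ) × Fin d

/-- `σ` is an infinite-volume ground state for the couplings `K`: every change at finitely many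
sites (at least one) increases the energy `-∑ K_e σ σ` (the sum of the differences over all bonds
is a finite sum). -/
def IsGroundState {d : ℕ} (K : Bond d → ℝ) (σ : (Fin d → ℤ) → ℝ) : Prop :=
  (∀ x, σ x = 1 ∨ σ x = -1) ∧
  ∀ ρ : (Fin d → ℤ) → ℝ, (∀ x, ρ x = 1 ∨ ρ x = -1) → {x | ρ x ≠ σ x}.Finite → ρ ≠ σ →
    0 < ∑ᶠ e : Bond d, K e * (σ e.1 * σ (e.1 + (Pi.single e.2 (1 : ℤ) : Fin d → ℤ))
      - ρ e.1 * ρ (e.1 + (Pi.single e.2 (1 : ℤ) : Fin d → ℤ)))

/-- The set of the ground states for the couplings `w_e J_e`. -/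
def groundStates {d : ℕ} (w J : Bond d → ℝ) : Set ((Fin d → ℤ) → ℝ) :=
  {σ | IsGroundState (fun e => w e * J e) σ}

/-- The site `v + t e_i`. -/
def rayPoint {d : ℕ} (i : Fin d) (v : Fin d → ℤ) (t : ℕ) : Fin d → ℤ :=
  v + (t : ℤ) • (Pi.single i (1 : ℤ) : Fin d → ℤ)

/-- The bond `e` joins `v + t e_i` and `v + (t + 1) e_i` for some `v ∈ P` and `t ≥ 0`. -/
def OnRay {d : ℕ} (i : Fin d) (P : Set (Fin d → ℤ)) (e : Bond d) : Prop :=
  ∃ v ∈ P, ∃ t : ℕ, e = (rayPoint i v t, i)

/-- The bond `e` has exactly one end in the box of radius `r` around `0`, for some `r ∈ R`. -/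
def Crosses {d : ℕ} (R : Set ℕ) (e : Bond d) : Prop :=
  ∃ r ∈ R, ¬ ((∀ j, |e.1 j| ≤ r) ↔
    (∀ j, |(e.1 + (Pi.single e.2 (1 : ℤ) : Fin d → ℤ)) j| ≤ r))

/-- Along each of the rays the spins are finally those which satisfy all bonds of the ray, with the
sign `s v` at the first site `v`. -/
def Follows {d : ℕ} (i : Fin d) (P : Set (Fin d → ℤ)) (J : Bond d → ℝ)
    (s σ : (Fin d → ℤ) → ℝ) : Prop :=
  ∀ v ∈ P, ∀ᶠ t : ℕ in atTop,
    σ (rayPoint i v t) = s v * ∏ k ∈ Finset.range t, Real.sign (J (rayPoint i v k, i))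

open Pool.Agent.R239.EA Pool.Agent.U708.EA

lemma ga_iff {d : ℕ} {w J : Bond d → ℝ} {σ : (Fin d → ℤ) → ℝ} :
    σ ∈ groundStates w J ↔ GA (fun e => w e * J e) σ := by
  rw [GA_iff]
  rfl

lemma onRay_iff {d : ℕ} {i : Fin d} {P : Set (Fin d → ℤ)} {e : Bond d} :
    OnRay i P e ↔ e ∈ rays i P := Iff.rfl

lemma crosses_iff {d : ℕ} {R : Set ℕ} {e : Bond d} : Crosses R e ↔ ∃ r ∈ R, e ∈ cr d r := by
  unfold Crosses
  refine exists_congr fun r => and_congr_right fun _ => ?_
  rw [mem_cr, nrm_le, nrm_le]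
  rfl

lemma follows_iff {d : ℕ} {i : Fin d} {P : Set (Fin d → ℤ)} {J : Bond d → ℝ}
    {s σ : (Fin d → ℤ) → ℝ} : Follows i P J s σ ↔ Fol i P J s σ := Iff.rfl

/-- Let `d ≥ 2`, let the couplings `J` on the bonds of `ℤ^d` be iid with the atomless law `μ`, let
`i` be a direction, `P` any set of sites `v` with `v i = 0` and `R` any infinite set of radii. There
are positive weights `w`, which do not depend on the couplings, such that

(1) `w ≥ 1` on the bonds of the rays `{v + t e_i : t ≥ 0}`, `v ∈ P`, `w ≤ 1` on all other bonds,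
and `w = 1` on all bonds which are neither on one of the rays nor cross the boundary of a box of
radius `r ∈ R`. For every `n` at most
`2 d (2 n + 1) ^ (d - 1) #{r ∈ R : r ≤ n} + (n + 1) #{v ∈ P : |v| ≤ n}` bonds `e` of the box of
radius `n` have `w e ≠ 1`;

(2) if `P` is empty, then almost surely there is exactly one pair `σ, -σ` of ground states for the
couplings `w_e J_e`;

(3) if `P` is not empty, then almost surely: for every choice of signs `s v`, `v ∈ P`, exactly one
ground state follows the signs `s`, and there are no other ground states. In particular their number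
is `2 ^ #P` (the cardinality of the set of all subsets of `P`). -/
theorem result (d : ℕ) (hd : 2 ≤ d) (μ : Measure ℝ) [IsProbabilityMeasure μ]
    (hμ : ∀ x, μ {x} = 0) (i : Fin d) (P : Set (Fin d → ℤ)) (hP : ∀ v ∈ P, v i = 0) (R : Set ℕ)
    (hR : R.Infinite) :
    ∃ w : Bond d → ℝ, (∀ e, 0 < w e) ∧
      ((∀ e, OnRay i P e → 1 ≤ w e) ∧ (∀ e, ¬ OnRay i P e → w e ≤ 1) ∧
        (∀ e, ¬ OnRay i P e → ¬ Crosses R e → w e = 1) ∧
        ∀ n : ℕ, {e : Bond d | (∀ j, |e.1 j| ≤ (n : ℤ)) ∧ w e ≠ 1}.ncard ≤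
          2 * d * (2 * n + 1) ^ (d - 1) * {r ∈ R | r ≤ n}.ncard +
            (n + 1) * {v ∈ P | ∀ j, |v j| ≤ (n : ℤ)}.ncard) ∧
      (P = ∅ → ∀ᵐ J ∂(Measure.infinitePi fun _ : Bond d => μ),
        ∃ σ, groundStates w J = {σ, -σ}) ∧
      (P.Nonempty → ∀ᵐ J ∂(Measure.infinitePi fun _ : Bond d => μ),
        (∀ s : (Fin d → ℤ) → ℝ, (∀ v, s v = 1 ∨ s v = -1) →
          ∃ σ ∈ groundStates w J, Follows i P J s σ ∧
            ∀ τ ∈ groundStates w J, Follows i P J s τ → τ = σ) ∧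
        (∀ σ ∈ groundStates w J, ∃ s : (Fin d → ℤ) → ℝ, (∀ v, s v = 1 ∨ s v = -1) ∧
          Follows i P J s σ) ∧
        Cardinal.mk (groundStates w J) = 2 ^ Cardinal.mk P) := by
  classical
  set r : ℕ → ℕ := Nat.nth (fun k => k ∈ R) with hr
  have hmono : StrictMono r := Nat.nth_strictMono hR
  have hmem : ∀ k, r k ∈ R := fun k => Nat.nth_mem_of_infinite hR k
  obtain ⟨w, h0, h1, h2, h3, h4⟩ := main μ hμ i hmono P hP
  have hoff : ∀ e, e ∉ rays i P → (∀ m ∈ R, e ∉ cr d m) → w e = 1 := by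
    intro e he hm
    exact h3 e he fun k => hm (r k) (hmem k)
  refine ⟨w, h0, ⟨h1, h2, fun e he hc => ?_, count hP R hoff⟩, fun hPe => ?_, fun hPn => ?_⟩
  · refine hoff e he fun m hm hcr => hc ?_
    rw [crosses_iff]
    exact ⟨m, hm, hcr⟩
  · filter_upwards [h4] with J hJ
    obtain ⟨T0, hG⟩ := hJ
    obtain ⟨σ, hσ, -⟩ := exists_fol hd hP hG (s := fun _ => 1) (fun _ => Or.inl rfl)
    refine ⟨σ, ?_⟩
    ext τ
    rw [ga_iff, Set.mem_insert_iff, Set.mem_singleton_iff]
    constructor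
    · intro hτ
      refine congruent (hσ 0).1 (hτ 0).1 (congr_fol hP hmono hG hσ hτ ?_)
      intro v hv
      rw [hPe] at hv
      exact absurd hv (Set.notMem_empty v)
    · rintro (h | h)
      · rw [h]; exact hσ
      · rw [h]
        intro n
        refine ⟨fun x => ?_, fun A hA hAB => ?_⟩
        · rw [Pi.neg_apply]
          rcases (hσ 0).1 x with h | h <;> rw [h] <;> norm_num
        · have h5 := (hσ n).2 A hA hAB
          simpa only [Pi.neg_apply, neg_mul_neg] using h5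
  · filter_upwards [h4] with J hJ
    obtain ⟨T0, hG⟩ := hJ
    have hex : ∀ s : (Fin d → ℤ) → ℝ, (∀ v, s v = 1 ∨ s v = -1) →
        ∃ σ ∈ groundStates w J, Follows i P J s σ := by
      intro s hs
      obtain ⟨σ, h5, h6⟩ := exists_fol hd hP hG hs
      exact ⟨σ, ga_iff.2 h5, h6⟩
    have huniq : ∀ s σ τ, σ ∈ groundStates w J → τ ∈ groundStates w J → Follows i P J s σ →
        Follows i P J s τ → τ = σ := by
      intro s σ τ h5 h6 h7 h8
      exact uniq_fol hP hmono hG hPn (ga_iff.1 h5) (ga_iff.1 h6) h7 h8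
    have hall : ∀ σ ∈ groundStates w J, ∃ s : (Fin d → ℤ) → ℝ, (∀ v, s v = 1 ∨ s v = -1) ∧
        Follows i P J s σ := by
      intro σ hσ
      obtain ⟨s, h5, h6⟩ := fol_of hP hG (ga_iff.1 hσ)
      refine ⟨s, h5, fun v hv => ?_⟩
      filter_upwards [eventually_ge_atTop T0] with t ht
      exact h6 v hv t ht
    refine ⟨fun s hs => ?_, hall, ?_⟩
    · obtain ⟨σ, h5, h6⟩ := hex s hs
      exact ⟨σ, h5, h6, fun τ h7 h8 => huniq s σ τ h5 h7 h6 h8⟩
    · refine card_states (groundStates w J) (Follows i P J) hex huniq ?_ ?_ hall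
      · intro s s' σ h5 h6 v hv
        obtain ⟨t, h7, h8⟩ := ((h5 v hv).and (h6 v hv)).exists
        rw [h7] at h8
        have h9 : sgn i J v t ≠ 0 := by
          rcases sgn_pm (i0 := i) hG.ne v t with h | h <;> rw [h] <;> norm_num
        exact mul_right_cancel₀ h9 h8
      · intro s s' σ h5 h6 v hv
        filter_upwards [h5 v hv] with t ht
        rw [ht, h6 v hv]

end Pool.Agent.Results.MP_37ff18_mp.ZeroDensityRescaling
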